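import Mathlib

set_option autoImplicit false

open Polynomial

namespace Pool.Agent.TH904.IrrSub

/-- `f(aY + b, Y)` for `f ∈ F[X, Y]`; the variable `X` is `X 0`, the variable `Y` is `X 1`. -/
noncomputable def subst {F : Type*} [Field F] (f : MvPolynomial (Fin 2) F) (a b : F) : F[X] :=
  MvPolynomial.aeval ![C a * X + C b, X] f

section key

variable {p : ℕ} [hpf : Fact p.Prime] {F L : Type*} [Field F] [Fintype F] [CharP F p] [Field L]
  [Fintype L] [Algebra F L]

/-- The key step: the Frobenius has order dividing `p` on the roots of `Y^(p^2) + aY + b`. -/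
theorem key (hp : p ≠ 2) (hfin : Module.finrank F L = p ^ 2) (a b : F) (α : L)
    (hα : α ^ (p ^ 2) + algebraMap F L a * α + algebraMap F L b = 0) :
    (FiniteField.frobeniusAlgHom F L ^ p) α = α := by
  classical
  have : CharP L p := charP_of_injective_algebraMap' F p
  let _ : Algebra (ZMod p) L := ZMod.algebra L p
  set σ := FiniteField.frobeniusAlgHom F L with hσ
  -- `N = σ - 1` as a linear map over `ZMod p`
  let Sg : Module.End (ZMod p) L := (σ : L →+ L).toZModLinearMap p
  have hSg : ∀ x, Sg x = σ x := fun x => rfl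
  let N : Module.End (ZMod p) L := Sg - 1
  have hN : ∀ x, N x = σ x - x := fun x => rfl
  let A : Module.End (ZMod p) L :=
    (({ toFun := fun x => x ^ (p ^ 2) + algebraMap F L a * x
        map_zero' := by
          simp [hpf.out.ne_zero]
        map_add' := fun x y => by
          rw [add_pow_char_pow]; ring } : L →+ L)).toZModLinearMap p
  have hA : ∀ x, A x = x ^ (p ^ 2) + algebraMap F L a * x := fun x => rfl
  have hAN : ∀ x, A x = 0 → A (N x) = 0 := by
    intro x hx
    have h1 : A (σ x) = σ (A x) := by
      rw [hA, hA, map_add, map_mul, map_pow, AlgHom.commutes]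
    rw [hN, map_sub, h1, hx, map_zero, sub_zero]
  let V : Submodule (ZMod p) L := LinearMap.ker A
  have hVN : ∀ x ∈ V, N x ∈ V := fun x hx => hAN x hx
  let NV : Module.End (ZMod p) V := N.restrict hVN
  -- the dimension of `V` is at most two
  have hcardV : Nat.card V ≤ p ^ 2 := by
    have hp1 : 1 < p ^ 2 := Nat.one_lt_pow two_ne_zero hpf.out.one_lt
    let P : L[X] := X ^ (p ^ 2) + C (algebraMap F L a) * X
    have hPdeg : P.natDegree = p ^ 2 := by
      have : (C (algebraMap F L a) * X : L[X]).degree < ((p ^ 2 : ℕ) : WithBot ℕ) := by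
        refine (degree_C_mul_X_le _).trans_lt ?_
        exact_mod_cast hp1
      have h2 : P.degree = ((p ^ 2 : ℕ) : WithBot ℕ) := by
        rw [show P = X ^ (p ^ 2) + C (algebraMap F L a) * X from rfl,
          degree_add_eq_left_of_degree_lt (by rw [degree_X_pow]; exact this), degree_X_pow]
      exact natDegree_eq_of_degree_eq_some h2
    have hP0 : P ≠ 0 := by
      intro h0
      rw [h0, natDegree_zero] at hPdeg
      omega
    have hsub : (V : Set L) ⊆ (P.roots.toFinset : Set L) := by
      intro x hx
      simp only [Finset.mem_coe, Multiset.mem_toFinset]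
      rw [mem_roots hP0]
      have : A x = 0 := hx
      rw [hA] at this
      simpa [P, IsRoot] using this
    calc Nat.card V = Nat.card (V : Set L) := rfl
      _ ≤ Nat.card (P.roots.toFinset : Set L) := Nat.card_mono (Set.toFinite _) hsub
      _ = P.roots.toFinset.card := by rw [Nat.card_coe_set_eq, Set.ncard_coe_finset]
      _ ≤ Multiset.card P.roots := Multiset.toFinset_card_le _
      _ ≤ P.natDegree := card_roots' P
      _ = p ^ 2 := hPdeg
  have hfinV : Module.finrank (ZMod p) V ≤ 2 := by
    have h1 : Nat.card V = Nat.card (ZMod p) ^ Module.finrank (ZMod p) V :=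
      Module.natCard_eq_pow_finrank
    rw [Nat.card_zmod] at h1
    rw [h1] at hcardV
    exact (Nat.pow_le_pow_iff_right hpf.out.one_lt).1 hcardV
  -- `N` is nilpotent
  have hSgpow : ∀ n : ℕ, ∀ x, (Sg ^ n) x = (σ ^ n) x := by
    intro n
    induction n with
    | zero => intro x; rfl
    | succ n ih => intro x; rw [pow_succ, pow_succ, Module.End.mul_apply, ih, hSg]; rfl
  have hNnil : N ^ (p ^ 2) = 0 := by
    have : CharP (Module.End (ZMod p) L) p := by
      exact charP_of_injective_algebraMap' (ZMod p) p
    have h1 : N ^ (p ^ 2) = Sg ^ (p ^ 2) - 1 ^ (p ^ 2) :=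
      sub_pow_char_pow_of_commute _ _ (Commute.one_right _)
    rw [h1, one_pow]
    ext x
    rw [LinearMap.sub_apply, hSgpow, ← hfin, ← FiniteField.orderOf_frobeniusAlgHom, ← hσ,
      pow_orderOf_eq_one]
    simp
  have hNV2 : ∀ v ∈ V, N (N v) = 0 := by
    intro v hv
    have hNVnil : NV ^ (p ^ 2) = 0 := by
      have : ∀ n : ℕ, ∀ x : V, (((NV ^ n) x : V) : L) = (N ^ n) x := by
        intro n
        induction n with
        | zero => intro x; rfl
        | succ n ih =>
          intro x
          rw [pow_succ, pow_succ, Module.End.mul_apply, Module.End.mul_apply, ih]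
          rfl
      ext x
      rw [this, hNnil]
      rfl
    have h2 : (⟨v, hv⟩ : V) ∈ LinearMap.ker (NV ^ (p ^ 2)) := by
      rw [hNVnil]; rfl
    have h3 := Module.End.ker_pow_le_ker_pow_finrank NV (p ^ 2) h2
    have h4 : (NV ^ 2) ⟨v, hv⟩ = 0 := by
      obtain ⟨c, hc⟩ := Nat.exists_eq_add_of_le hfinV
      have h5 : (NV ^ Module.finrank (ZMod p) V) ⟨v, hv⟩ = 0 := h3
      rw [hc, add_comm, pow_add, Module.End.mul_apply, h5, map_zero]
    have h6 : (((NV ^ 2) ⟨v, hv⟩ : V) : L) = 0 := by rw [h4]; rfl
    rw [pow_two, Module.End.mul_apply] at h6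
    exact h6
  -- the orbit of `α`
  set w := σ α - α with hw
  have hwV : w ∈ V := by
    show A w = 0
    have h1 : A (σ α) = σ (A α) := by
      rw [hA, hA, map_add, map_mul, map_pow, AlgHom.commutes]
    have h2 : A α = - algebraMap F L b := by
      rw [hA]; linear_combination hα
    rw [hw, map_sub, h1, h2, map_neg, AlgHom.commutes, sub_self]
  set u := σ w - w with hu
  have huσ : σ u = u := by
    have := hNV2 w hwV
    rw [hN, hN] at this
    exact sub_eq_zero.1 this
  have hσw : σ w = w + u := by rw [hu]; ring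
  have hσα : σ α = α + w := by rw [hw]; ring
  have horb : ∀ n : ℕ, (σ ^ n) α = α + n * w + (n.choose 2 : ℕ) * u := by
    intro n
    induction n with
    | zero => simp
    | succ n ih =>
      rw [pow_succ', AlgHom.mul_apply, ih, map_add, map_add, map_mul, map_mul, map_natCast,
        map_natCast, hσw, huσ, hσα, Nat.choose_succ_succ' n 1, Nat.choose_one_right]
      push_cast
      ring
  rw [horb p]
  have h1 : ((p.choose 2 : ℕ) : L) = 0 := by
    rw [CharP.cast_eq_zero_iff L p]
    have : 2 < p := lt_of_le_of_ne hpf.out.two_le (Ne.symm hp)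
    exact hpf.out.dvd_choose_self two_ne_zero this
  rw [h1, CharP.cast_eq_zero]
  ring

end key

/-- `Y^(p^2) + aY + b` is never irreducible over a finite field of odd characteristic `p`. -/
theorem not_irreducible {p : ℕ} [hpf : Fact p.Prime] {F : Type*} [Field F] [Fintype F] [CharP F p]
    (hp : p ≠ 2) (a b : F) : ¬ Irreducible (X ^ (p ^ 2) + C a * X + C b : F[X]) := by
  intro hirr
  set g : F[X] := X ^ (p ^ 2) + C a * X + C b with hg
  have hp1 : 1 < p ^ 2 := Nat.one_lt_pow two_ne_zero hpf.out.one_lt
  have hdeg : g.natDegree = p ^ 2 := by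
    have h1 : (C a * X + C b : F[X]).degree < ((p ^ 2 : ℕ) : WithBot ℕ) := by
      refine (degree_linear_le).trans_lt ?_
      exact_mod_cast hp1
    have h2 : g.degree = ((p ^ 2 : ℕ) : WithBot ℕ) := by
      rw [hg, add_assoc, degree_add_eq_left_of_degree_lt (by rw [degree_X_pow]; exact h1),
        degree_X_pow]
    exact natDegree_eq_of_degree_eq_some h2
  have : Fact (Irreducible g) := ⟨hirr⟩
  have hg0 : g ≠ 0 := hirr.ne_zero
  have : Module.Finite F (AdjoinRoot g) := by
    exact (AdjoinRoot.powerBasis hg0).finite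
  have : Finite (AdjoinRoot g) := Module.finite_of_finite F
  let _ : Fintype (AdjoinRoot g) := Fintype.ofFinite _
  have hfin : Module.finrank F (AdjoinRoot g) = p ^ 2 := by
    rw [(AdjoinRoot.powerBasis hg0).finrank, AdjoinRoot.powerBasis_dim, hdeg]
  have hroot : (AdjoinRoot.root g) ^ (p ^ 2) + algebraMap F (AdjoinRoot g) a * (AdjoinRoot.root g)
      + algebraMap F (AdjoinRoot g) b = 0 := by
    have := AdjoinRoot.eval₂_root g
    rw [hg] at this
    simpa [AdjoinRoot.algebraMap_eq] using this
  have hk := key hp hfin a b (AdjoinRoot.root g) hroot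
  have hone : FiniteField.frobeniusAlgHom F (AdjoinRoot g) ^ p = 1 := by
    apply AdjoinRoot.algHom_ext
    rw [hk]; rfl
  have hdvd := orderOf_dvd_of_pow_eq_one hone
  rw [FiniteField.orderOf_frobeniusAlgHom, hfin] at hdvd
  have := Nat.le_of_dvd hpf.out.pos hdvd
  nlinarith [hpf.out.one_lt]

/-- The polynomial `X + Y^n`. -/
noncomputable def ff (F : Type*) [Field F] (n : ℕ) : MvPolynomial (Fin 2) F :=
  MvPolynomial.X 0 + MvPolynomial.X 1 ^ n

/-- the substitution `X ↦ X + Y^n`, `Y ↦ Y` as an automorphism -/
noncomputable def shear (F : Type*) [Field F] (n : ℕ) :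
    MvPolynomial (Fin 2) F ≃ₐ[F] MvPolynomial (Fin 2) F :=
  AlgEquiv.ofAlgHom
    (MvPolynomial.aeval ![MvPolynomial.X 0 + MvPolynomial.X 1 ^ n, MvPolynomial.X 1])
    (MvPolynomial.aeval ![MvPolynomial.X 0 - MvPolynomial.X 1 ^ n, MvPolynomial.X 1])
    (by
      apply MvPolynomial.algHom_ext
      intro i
      fin_cases i <;> simp)
    (by
      apply MvPolynomial.algHom_ext
      intro i
      fin_cases i <;> simp)

theorem ff_irreducible (F : Type*) [Field F] (n : ℕ) : Irreducible (ff F n) := by
  have h : ff F n = shear F n (MvPolynomial.X 0) := by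
    simp [ff, shear]
  rw [h, MulEquiv.irreducible_iff (shear F n)]
  exact MvPolynomial.X_prime.irreducible

theorem ff_totalDegree (F : Type*) [Field F] {n : ℕ} (hn : 1 < n) :
    (ff F n).totalDegree = n := by
  have h : (MvPolynomial.X 0 : MvPolynomial (Fin 2) F).totalDegree <
      (MvPolynomial.X 1 ^ n : MvPolynomial (Fin 2) F).totalDegree := by
    rw [MvPolynomial.totalDegree_X, MvPolynomial.totalDegree_X_pow]
    exact hn
  rw [ff, MvPolynomial.totalDegree_add_eq_right_of_totalDegree_lt h,
    MvPolynomial.totalDegree_X_pow]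

theorem subst_ff {F : Type*} [Field F] (n : ℕ) (a b : F) :
    subst (ff F n) a b = X ^ n + C a * X + C b := by
  simp only [subst, ff, map_add, map_pow, MvPolynomial.aeval_X, Matrix.cons_val_zero,
    Matrix.cons_val_one]
  ring

end Pool.Agent.TH904.IrrSub
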