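import Mathlib

set_option autoImplicit false

namespace Pool.Agent.TH904.CP

/-- `A` is (the set of terms of) a complete sequence in `(m, m + k]`. -/
def IsComplete (m k : ℕ) (A : Finset ℕ) : Prop :=
  (∀ a ∈ A, m < a ∧ a ≤ m + k) ∧
  (∀ a ∈ A, ∀ b ∈ A, a ≠ b → Nat.Coprime a b) ∧
  (∀ n : ℕ, m < n → n ≤ m + k → ∃ a ∈ A, 1 < Nat.gcd n a)

theorem extend (m k : ℕ) (hm : 1 ≤ m) (B : Finset ℕ) (hB : ∀ b ∈ B, m < b ∧ b ≤ m + k)
    (hc : ∀ a ∈ B, ∀ b ∈ B, a ≠ b → Nat.Coprime a b) :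
    ∃ A : Finset ℕ, B ⊆ A ∧ IsComplete m k A := by
  classical
  let P : Finset (Finset ℕ) := (Finset.Ioc m (m + k)).powerset.filter
    (fun A => B ⊆ A ∧ ∀ a ∈ A, ∀ b ∈ A, a ≠ b → Nat.Coprime a b)
  have hBP : B ∈ P := by
    simp only [P, Finset.mem_filter, Finset.mem_powerset]
    refine ⟨fun b hb => Finset.mem_Ioc.2 (hB b hb), fun _ h => h, hc⟩
  obtain ⟨A, hA, hmax⟩ := Finset.exists_max_image P Finset.card ⟨B, hBP⟩
  simp only [P, Finset.mem_filter, Finset.mem_powerset] at hA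
  obtain ⟨hA1, hA2, hA3⟩ := hA
  refine ⟨A, hA2, fun a ha => Finset.mem_Ioc.1 (hA1 ha), hA3, ?_⟩
  intro n hn1 hn2
  by_cases hnA : n ∈ A
  · exact ⟨n, hnA, by rw [Nat.gcd_self]; omega⟩
  · by_contra hcon
    push Not at hcon
    have hcop : ∀ a ∈ A, Nat.Coprime n a := by
      intro a ha
      have h1 := hcon a ha
      have h2 : 0 < Nat.gcd n a := Nat.gcd_pos_of_pos_left _ (by omega)
      show Nat.gcd n a = 1
      omega
    have hins : insert n A ∈ P := by
      simp only [P, Finset.mem_filter, Finset.mem_powerset]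
      refine ⟨?_, fun b hb => Finset.mem_insert_of_mem (hA2 hb), ?_⟩
      · intro b hb
        rcases Finset.mem_insert.1 hb with rfl | hb
        · exact Finset.mem_Ioc.2 ⟨hn1, hn2⟩
        · exact hA1 hb
      · intro a ha b hb hab
        rcases Finset.mem_insert.1 ha with h1 | ha
        · rcases Finset.mem_insert.1 hb with h2 | hb
          · exact absurd (h1.trans h2.symm) hab
          · rw [h1]; exact hcop b hb
        · rcases Finset.mem_insert.1 hb with h2 | hb
          · rw [h2]; exact (hcop a ha).symm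
          · exact hA3 a ha b hb hab
    have := hmax _ hins
    rw [Finset.card_insert_of_notMem hnA] at this
    omega

/-- Transfer from admissible sets to pairwise coprime sets. -/
theorem transfer (k : ℕ) (S : Finset ℤ) (hS : ∀ s ∈ S, 0 ≤ s ∧ s < (k : ℤ))
    (hadm : ∀ q : ℕ, q.Prime → ∃ r : ℤ, ∀ s ∈ S, ¬ ((q : ℤ) ∣ s - r)) :
    ∃ m : ℕ, 1 ≤ m ∧ ∃ A : Finset ℕ, IsComplete m k A ∧ S.card ≤ A.card := by
  classical
  choose! r hr using hadm
  let T : Finset ℕ := (Finset.range (k + 1)).filter Nat.Prime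
  obtain ⟨K, hK⟩ := Nat.chineseRemainderOfFinset (fun q => ((-(r q)) % (q : ℤ)).toNat)
    (fun q => q) T (fun q hq => (Finset.mem_filter.1 hq).2.ne_zero)
    (fun p hp q hq hpq => (Nat.coprime_primes (Finset.mem_filter.1 hp).2
      (Finset.mem_filter.1 hq).2).2 hpq)
  set N : ℕ := K + 2 * k.factorial with hN
  have hfac : 1 ≤ k.factorial := Nat.factorial_pos k
  have hN2 : 2 ≤ N := by omega
  -- no prime up to k divides N + s
  have hnd : ∀ q : ℕ, q.Prime → q ≤ k → ∀ s ∈ S, ¬ ((q : ℤ) ∣ (N : ℤ) + s) := by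
    intro q hq hqk s hs hdiv
    have h1 : K ≡ ((-(r q)) % (q : ℤ)).toNat [MOD q] :=
      hK q (Finset.mem_filter.2 ⟨Finset.mem_range.2 (by omega), hq⟩)
    have hq0 : (q : ℤ) ≠ 0 := by exact_mod_cast hq.ne_zero
    have h2 : (K : ℤ) ≡ ((-(r q)) % (q : ℤ)) [ZMOD q] := by
      have := (Int.natCast_modEq_iff.2 h1)
      rwa [Int.toNat_of_nonneg (Int.emod_nonneg _ hq0)] at this
    have h3 : (K : ℤ) ≡ -(r q) [ZMOD q] := h2.trans (Int.mod_modEq _ _)
    have h4 : (q : ℤ) ∣ -(r q) - K := h3.dvd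
    have h5 : (q : ℤ) ∣ ((2 * k.factorial : ℕ) : ℤ) := by
      exact_mod_cast Dvd.dvd.mul_left ((Nat.Prime.dvd_factorial hq).2 hqk) 2
    apply hr q hq s hs
    have h6 : s - r q = ((N : ℤ) + s) + (-(r q) - K) - ((2 * k.factorial : ℕ) : ℤ) := by
      rw [hN]; push_cast; ring
    rw [h6]
    exact dvd_sub (dvd_add hdiv h4) h5
  let B : Finset ℕ := S.image (fun s => N + s.toNat)
  have hBcard : B.card = S.card := by
    apply Finset.card_image_of_injOn
    intro a ha b hb hab
    have ha' := (hS a ha).1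
    have hb' := (hS b hb).1
    simp only at hab
    omega
  have hBr : ∀ b ∈ B, N - 1 < b ∧ b ≤ (N - 1) + k := by
    intro b hb
    obtain ⟨s, hs, rfl⟩ := Finset.mem_image.1 hb
    have := hS s hs
    omega
  have hBc : ∀ a ∈ B, ∀ b ∈ B, a ≠ b → Nat.Coprime a b := by
    intro a ha b hb hab
    obtain ⟨s, hs, rfl⟩ := Finset.mem_image.1 ha
    obtain ⟨t, ht, rfl⟩ := Finset.mem_image.1 hb
    have hs' := hS s hs
    have ht' := hS t ht
    by_contra hcop
    obtain ⟨p, hp, hpa, hpb⟩ := Nat.Prime.not_coprime_iff_dvd.1 hcop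
    have hpa' : (p : ℤ) ∣ (N : ℤ) + s := by
      have : ((N + s.toNat : ℕ) : ℤ) = (N : ℤ) + s := by
        rw [Nat.cast_add, Int.toNat_of_nonneg hs'.1]
      rw [← this]; exact_mod_cast hpa
    have hpb' : (p : ℤ) ∣ (N : ℤ) + t := by
      have : ((N + t.toNat : ℕ) : ℤ) = (N : ℤ) + t := by
        rw [Nat.cast_add, Int.toNat_of_nonneg ht'.1]
      rw [← this]; exact_mod_cast hpb
    have hdiff : (p : ℤ) ∣ s - t := by
      have := dvd_sub hpa' hpb'
      have h : (N : ℤ) + s - (N + t) = s - t := by ring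
      rwa [h] at this
    have hne : s - t ≠ 0 := by
      intro h0
      apply hab
      have : s = t := by omega
      rw [this]
    have hle : (p : ℤ) ≤ |s - t| := Int.le_of_dvd (abs_pos.2 hne) ((dvd_abs _ _).2 hdiff)
    have hlt : |s - t| < (k : ℤ) := by
      rw [abs_lt]; constructor <;> omega
    exact hnd p hp (by omega) s hs hpa'
  obtain ⟨A, hBA, hA⟩ := extend (N - 1) k (by omega) B hBr hBc
  exact ⟨N - 1, by omega, A, hA, hBcard ▸ Finset.card_le_card hBA⟩

/-- The explicit example `{5, 7, 8, 9, 11, 13}` in `(4, 13]`. -/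
theorem example_nine : IsComplete 4 9 {5, 7, 8, 9, 11, 13} := by
  refine ⟨?_, ?_, ?_⟩
  · intro a ha
    simp only [Finset.mem_insert, Finset.mem_singleton] at ha
    omega
  · decide
  · intro n hn1 hn2
    interval_cases n
    · exact ⟨5, by decide, by decide⟩
    · exact ⟨8, by decide, by decide⟩
    · exact ⟨7, by decide, by decide⟩
    · exact ⟨8, by decide, by decide⟩
    · exact ⟨9, by decide, by decide⟩
    · exact ⟨5, by decide, by decide⟩
    · exact ⟨11, by decide, by decide⟩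
    · exact ⟨8, by decide, by decide⟩
    · exact ⟨13, by decide, by decide⟩

end Pool.Agent.TH904.CP
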